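import Pool.Agent.H313R3.GK.LF

/-!
# Multiple zeros of Hardy's function are seen by the Liouville function, with both signs, in every short window

Let `L(y) = ∑_{n ≤ y} λ(n)`, `B > 1`.

* If `t` is a real zero of `Z` of multiplicity at least `m ≥ 1`, then there is `c > 0` such that **every** window
  `[x, x (log x)^B]` with `x` large contains `y₁`, `y₂` with
  `L(y₁) ≥ √y₁/ζ(1/2) + c √y₁ (log y₁)^(m-1)` and `L(y₂) ≤ √y₂/ζ(1/2) - c √y₂ (log y₂)^(m-1)`.
* If for one sign `s = ±1` and every `ε > 0` there are arbitrarily large `x` (as sparse as one likes) such that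
  `s L(y) ≤ ε √y log y` on the single window `[x, x (log x)^B]`, then every real zero of `Z` is simple (and the
  Riemann Hypothesis holds).
* In particular, if Polya's inequality `L(y) ≤ 0` holds on arbitrarily large windows `[x, x (log x)^B]`, then
  every real zero of `Z` is simple.

The multiplicity of a real zero `t` of `Z` is the order of vanishing of `ζ` at `1/2 + it`.
-/

set_option autoImplicit false

open Filter Topology Complex

namespace Pool.Agent.Results.MP_6bc78b_nt.OneSidedLiouville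

/-- the phase `exp (i ϑ(t))`, with `ϑ(t) = arg Γ(1/4 + i t / 2) - (t / 2) log π` -/
noncomputable def phase (t : ℝ) : ℂ :=
  Gamma (1 / 4 + I * t / 2) / ‖Gamma (1 / 4 + I * t / 2)‖ * cexp (-(I * (t / 2) * Real.log Real.pi))

/-- Hardy's function `Z(t) = exp (i ϑ(t)) ζ(1/2 + i t)` -/
noncomputable def Z (t : ℝ) : ℂ := phase t * riemannZeta (1 / 2 + I * t)

/-- the multiplicity of the point `1/2 + it` as a zero of `ζ`, i.e. of `t` as a zero of `Z` -/
noncomputable def mult (t : ℝ) : ℕ∞ := analyticOrderAt riemannZeta (1 / 2 + I * t)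

/-- `L(y) = ∑_{n ≤ y} λ(n)` -/
noncomputable def L (y : ℝ) : ℝ := ∑ n ∈ Finset.Icc 1 ⌊y⌋₊, ((ArithmeticFunction.liouville n : ℤ) : ℝ)

/-- the real number `ζ(1/2)` -/
noncomputable def z : ℝ := (riemannZeta (1 / 2)).re

/-- for arbitrarily large `x`, `s L(y) ≤ ε √y log y` on the window `[x, x (log x)^B]` -/
def SupBound (B s ε : ℝ) : Prop :=
  ∃ᶠ x : ℝ in atTop, ∀ y ∈ Set.Icc x (x * Real.log x ^ B), s * L y ≤ ε * (Real.sqrt y * Real.log y)

lemma gamma_ne (t : ℝ) : Gamma (1 / 4 + I * t / 2) ≠ 0 := by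
  apply Gamma_ne_zero_of_re_pos
  simp

lemma gamma_cont : Continuous fun t : ℝ => Gamma (1 / 4 + I * t / 2) := by
  rw [continuous_iff_continuousAt]
  intro t
  have h1 : ContinuousAt Gamma (1 / 4 + I * t / 2) := by
    refine (differentiableAt_Gamma _ fun m hm => ?_).continuousAt
    have := congrArg Complex.re hm
    simp at this
    have hm0 : (0 : ℝ) ≤ m := Nat.cast_nonneg m
    linarith
  exact ContinuousAt.comp (f := fun t : ℝ => (1 / 4 + I * t / 2 : ℂ)) h1 (by fun_prop)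

lemma phase_cont : Continuous phase := by
  unfold phase
  refine Continuous.mul (gamma_cont.div ?_ ?_) (by fun_prop)
  · exact Complex.continuous_ofReal.comp gamma_cont.norm
  · intro t
    rw [Complex.ofReal_ne_zero]
    exact norm_ne_zero_iff.mpr (gamma_ne t)

lemma phase_ne (t : ℝ) : phase t ≠ 0 := by
  unfold phase
  refine mul_ne_zero (div_ne_zero (gamma_ne t) ?_) (Complex.exp_ne_zero _)
  rw [Complex.ofReal_ne_zero]
  exact norm_ne_zero_iff.mpr (gamma_ne t)

lemma Z_zero_iff (t : ℝ) : Z t = 0 ↔ riemannZeta (1 / 2 + I * t) = 0 := by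
  unfold Z
  rw [mul_eq_zero]
  exact ⟨fun h => h.resolve_left (phase_ne t), Or.inr⟩

lemma zeta_diff (t : ℝ) : DifferentiableAt ℂ riemannZeta (1 / 2 + I * t) := by
  refine differentiableAt_riemannZeta fun h => ?_
  have := congrArg Complex.re h
  norm_num at this

lemma Z_hasDerivAt (t : ℝ) (h : riemannZeta (1 / 2 + I * t) = 0) :
    HasDerivAt Z (phase t * (deriv riemannZeta (1 / 2 + I * t) * I)) t := by
  have hg : HasDerivAt (fun u : ℝ => riemannZeta (1 / 2 + I * u))
      (deriv riemannZeta (1 / 2 + I * t) * I) t := by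
    have h1 : HasDerivAt (fun u : ℝ => (1 / 2 + I * u : ℂ)) I t := by
      have h2 : HasDerivAt (fun u : ℝ => (u : ℂ)) 1 t := Complex.ofRealCLM.hasDerivAt
      simpa using (h2.const_mul I).const_add (1 / 2 : ℂ)
    exact HasDerivAt.comp (h₂ := riemannZeta) t (zeta_diff t).hasDerivAt h1
  rw [hasDerivAt_iff_tendsto_slope] at hg ⊢
  have h3 : Tendsto phase (𝓝[≠] t) (𝓝 (phase t)) :=
    phase_cont.continuousAt.tendsto.mono_left nhdsWithin_le_nhds
  refine (h3.mul hg).congr fun u => ?_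
  have hZ : Z t = 0 := (Z_zero_iff t).mpr h
  rw [slope_def_module, slope_def_module, hZ, h, sub_zero, sub_zero]
  unfold Z
  simp only [Complex.real_smul]
  ring

lemma half_re (t : ℝ) : (1 / 2 + I * t : ℂ).re = 1 / 2 := by simp

lemma simple_of (t : ℝ) (hm : mult t ≤ 1) (hz : Z t = 0) : deriv Z t ≠ 0 := by
  have h0 := (Z_zero_iff t).1 hz
  rw [(Z_hasDerivAt t h0).deriv]
  intro h
  rcases mul_eq_zero.1 h with h | h
  · exact phase_ne t h
  rcases mul_eq_zero.1 h with h | h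
  · have han := H313.TK.zeta_an (ρ := (1 / 2 + I * t : ℂ)) (by rw [half_re]; norm_num)
    have h2 : ((2 : ℕ) : ℕ∞) ≤ analyticOrderAt riemannZeta (1 / 2 + I * t) := by
      rw [natCast_le_analyticOrderAt_iff_iteratedDeriv_eq_zero han]
      intro i hi
      interval_cases i
      · simpa using h0
      · simpa [iteratedDeriv_one] using h
    have h3 := h2.trans hm
    have h4 : (2 : ℕ) ≤ 1 := by exact_mod_cast h3
    omega
  · exact I_ne_zero h

theorem result :
    -- `z` is the value `ζ(1/2)`, and `L` is the summatory function of `(-1)^Ω(n)`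
    (((z : ℝ) : ℂ) = riemannZeta (1 / 2) ∧ z ≠ 0 ∧
      ∀ y : ℝ, L y = ∑ n ∈ Finset.Icc 1 ⌊y⌋₊, (-1 : ℝ) ^ (ArithmeticFunction.cardFactors n)) ∧
    -- a zero of multiplicity at least `m` is seen, with both signs, in every window
    (∀ B : ℝ, 1 < B → ∀ (t : ℝ) (m : ℕ), 1 ≤ m → (m : ℕ∞) ≤ mult t →
      ∃ c : ℝ, 0 < c ∧ ∀ᶠ x : ℝ in atTop,
        (∃ y ∈ Set.Icc x (x * Real.log x ^ B),
          Real.sqrt y / z + c * (Real.sqrt y * Real.log y ^ (m - 1)) ≤ L y) ∧
        (∃ y ∈ Set.Icc x (x * Real.log x ^ B),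
          L y ≤ Real.sqrt y / z - c * (Real.sqrt y * Real.log y ^ (m - 1)))) ∧
    -- a one-sided bound on sparse windows implies that the zeros of `Z` are simple
    (∀ B : ℝ, 1 < B → ∀ s : ℝ, s = 1 ∨ s = -1 → (∀ ε : ℝ, 0 < ε → SupBound B s ε) →
      (∀ t : ℝ, Z t = 0 → deriv Z t ≠ 0) ∧
      ∀ ρ : ℂ, riemannZeta ρ = 0 → 0 < ρ.re → ρ.re < 1 → ρ.re = 1 / 2) ∧
    -- in particular Polya's inequality on sparse windows does
    (∀ B : ℝ, 1 < B → (∃ᶠ x : ℝ in atTop, ∀ y ∈ Set.Icc x (x * Real.log x ^ B), L y ≤ 0) →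
      (∀ t : ℝ, Z t = 0 → deriv Z t ≠ 0) ∧
      ∀ ρ : ℂ, riemannZeta ρ = 0 → 0 < ρ.re → ρ.re < 1 → ρ.re = 1 / 2) := by
  have hL : L = H313.GK.LL := rfl
  have hzz : z = H313.GK.z0 := rfl
  have main : ∀ B : ℝ, 1 < B → ∀ s : ℝ, s = 1 ∨ s = -1 → (∀ ε : ℝ, 0 < ε → SupBound B s ε) →
      (∀ t : ℝ, Z t = 0 → deriv Z t ≠ 0) ∧
      ∀ ρ : ℂ, riemannZeta ρ = 0 → 0 < ρ.re → ρ.re < 1 → ρ.re = 1 / 2 := by
    intro B hB s hs h
    have h2 := H313.GK.LL_sup_m hB s hs 1 le_rfl (fun ε hε => by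
      have h3 := h ε hε
      unfold SupBound at h3
      rw [hL] at h3
      simpa only [pow_one] using h3)
    refine ⟨fun t hz => ?_, fun ρ hz h0 h1 => (h2 ρ hz h0 h1).1⟩
    have h0 := (Z_zero_iff t).1 hz
    have hre := half_re t
    have h4 := (h2 (1 / 2 + I * t) h0 (by rw [hre]; norm_num) (by rw [hre]; norm_num)).2
    exact simple_of t (by simpa [mult] using h4) hz
  refine ⟨⟨H313.GK.z0_eq, H313.GK.z0_ne, ?_⟩, ?_, main, ?_⟩
  · intro y
    unfold L
    refine Finset.sum_congr rfl fun n hn => ?_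
    rw [Finset.mem_Icc] at hn
    rw [ArithmeticFunction.liouville_apply (by omega)]
    push_cast
    rfl
  · intro B hB t m hm1 hm
    have hre := half_re t
    obtain ⟨c, hc, h⟩ := H313.GK.LL_signs hB (1 / 2 + I * t) hre.ge (by rw [hre]; norm_num) m hm1 hm
    refine ⟨c, hc, ?_⟩
    filter_upwards [h] with x hx
    rw [hL, hzz]
    obtain ⟨y, hy, hy2⟩ := hx 1 (Or.inl rfl)
    obtain ⟨w, hw, hw2⟩ := hx (-1) (Or.inr rfl)
    rw [hre, ← Real.sqrt_eq_rpow] at hy2 hw2
    exact ⟨⟨y, hy, by linarith⟩, ⟨w, hw, by linarith⟩⟩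
  · intro B hB h
    refine main B hB 1 (Or.inl rfl) fun ε hε => ?_
    refine (h.and_eventually (eventually_ge_atTop 1)).mono ?_
    rintro x ⟨hx1, hx2⟩ y hy
    have h3 := hx1 y hy
    have h4 : 0 ≤ Real.log y := Real.log_nonneg (hx2.trans hy.1)
    have h5 : 0 ≤ ε * (Real.sqrt y * Real.log y) := by positivity
    linarith

end Pool.Agent.Results.MP_6bc78b_nt.OneSidedLiouville
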