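import Pool.Agent.H313R3.TK.L

/-!
# Multiple zeros of Hardy's function are seen by the Mertens function, with both signs, in every window

Let `M(y) = ∑_{n ≤ y} μ(n)`.

* If `t` is a real zero of `Z` of multiplicity at least `m ≥ 1`, then there is `c > 0` such that **every** window
  `[x, x log x]` with `x` large contains `y₁`, `y₂` with `M(y₁) ≥ c √y₁ (log y₁)^(m-1)` and
  `M(y₂) ≤ - c √y₂ (log y₂)^(m-1)`; also the mean squares of the positive and of the negative part of
  `M(y)/√y` on every window (with respect to `dy/y`) are at least `c (log x)^(2(m-1))`.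
* Let `k ≥ 1`.  If for one sign `s = ±1` and every `ε > 0` there are arbitrarily large `x` (as sparse as one
  likes) such that `s M(y) ≤ ε √y (log y)^k` on the single window `[x, x log x]`, or such that
  `∫_x^{x log x} (max(s M(y), 0)/y)² dy ≤ ε (log x)^(2k)`, then the Riemann Hypothesis holds and every
  nontrivial zero has multiplicity at most `k`.
* For `k = 1`: each of these one-sided conditions on sparse windows implies that every real zero of `Z` is
  simple.

The multiplicity of a real zero `t` of `Z` is the order of vanishing of `ζ` at `1/2 + it`.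
-/

set_option autoImplicit false

open Filter Topology Complex

namespace Pool.Agent.Results.MP_6bc78b_nt.OneSidedMertens

/-- the phase `exp (i ϑ(t))`, with `ϑ(t) = arg Γ(1/4 + i t / 2) - (t / 2) log π` -/
noncomputable def phase (t : ℝ) : ℂ :=
  Gamma (1 / 4 + I * t / 2) / ‖Gamma (1 / 4 + I * t / 2)‖ * cexp (-(I * (t / 2) * Real.log Real.pi))

/-- Hardy's function `Z(t) = exp (i ϑ(t)) ζ(1/2 + i t)` -/
noncomputable def Z (t : ℝ) : ℂ := phase t * riemannZeta (1 / 2 + I * t)

/-- the multiplicity of the point `1/2 + it` as a zero of `ζ`, i.e. of `t` as a zero of `Z` -/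
noncomputable def mult (t : ℝ) : ℕ∞ := analyticOrderAt riemannZeta (1 / 2 + I * t)

/-- `M(y) = ∑_{n ≤ y} μ(n)` -/
noncomputable def M (y : ℝ) : ℝ := ∑ n ∈ Finset.Icc 1 ⌊y⌋₊, ((ArithmeticFunction.moebius n : ℤ) : ℝ)

/-- for arbitrarily large `x`, `s M(y) ≤ ε √y (log y)^k` on the window `[x, x log x]` -/
def SupBound (s : ℝ) (k : ℕ) (ε : ℝ) : Prop :=
  ∃ᶠ x : ℝ in atTop, ∀ y ∈ Set.Icc x (x * Real.log x), s * M y ≤ ε * (Real.sqrt y * Real.log y ^ k)

/-- for arbitrarily large `x`, `∫_x^{x log x} (max(s M(y), 0)/y)² dy ≤ ε (log x)^(2k)` -/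
def SquareBound (s : ℝ) (k : ℕ) (ε : ℝ) : Prop :=
  ∃ᶠ x : ℝ in atTop, ∫ y in x..(x * Real.log x), (max (s * M y) 0 / y) ^ 2 ≤ ε * Real.log x ^ (2 * k)

lemma gamma_ne (t : ℝ) : Gamma (1 / 4 + I * t / 2) ≠ 0 := by
  apply Gamma_ne_zero_of_re_pos
  simp

lemma gamma_cont : Continuous fun t : ℝ => Gamma (1 / 4 + I * t / 2) := by
  rw [continuous_iff_continuousAt]
  intro t
  have h1 : ContinuousAt Gamma (1 / 4 + I * t / 2) := by
    refine (differentiableAt_Gamma _ fun m hm => ?_).continuousAt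
    have := congrArg Complex.re hm
    simp at this
    have hm0 : (0 : ℝ) ≤ m := Nat.cast_nonneg m
    linarith
  exact ContinuousAt.comp (f := fun t : ℝ => (1 / 4 + I * t / 2 : ℂ)) h1 (by fun_prop)

lemma phase_cont : Continuous phase := by
  unfold phase
  refine Continuous.mul (gamma_cont.div ?_ ?_) (by fun_prop)
  · exact Complex.continuous_ofReal.comp gamma_cont.norm
  · intro t
    rw [Complex.ofReal_ne_zero]
    exact norm_ne_zero_iff.mpr (gamma_ne t)

lemma phase_ne (t : ℝ) : phase t ≠ 0 := by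
  unfold phase
  refine mul_ne_zero (div_ne_zero (gamma_ne t) ?_) (Complex.exp_ne_zero _)
  rw [Complex.ofReal_ne_zero]
  exact norm_ne_zero_iff.mpr (gamma_ne t)

lemma Z_zero_iff (t : ℝ) : Z t = 0 ↔ riemannZeta (1 / 2 + I * t) = 0 := by
  unfold Z
  rw [mul_eq_zero]
  exact ⟨fun h => h.resolve_left (phase_ne t), Or.inr⟩

lemma zeta_diff (t : ℝ) : DifferentiableAt ℂ riemannZeta (1 / 2 + I * t) := by
  refine differentiableAt_riemannZeta fun h => ?_
  have := congrArg Complex.re h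
  norm_num at this

lemma Z_hasDerivAt (t : ℝ) (h : riemannZeta (1 / 2 + I * t) = 0) :
    HasDerivAt Z (phase t * (deriv riemannZeta (1 / 2 + I * t) * I)) t := by
  have hg : HasDerivAt (fun u : ℝ => riemannZeta (1 / 2 + I * u))
      (deriv riemannZeta (1 / 2 + I * t) * I) t := by
    have h1 : HasDerivAt (fun u : ℝ => (1 / 2 + I * u : ℂ)) I t := by
      have h2 : HasDerivAt (fun u : ℝ => (u : ℂ)) 1 t := Complex.ofRealCLM.hasDerivAt
      simpa using (h2.const_mul I).const_add (1 / 2 : ℂ)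
    exact HasDerivAt.comp (h₂ := riemannZeta) t (zeta_diff t).hasDerivAt h1
  rw [hasDerivAt_iff_tendsto_slope] at hg ⊢
  have h3 : Tendsto phase (𝓝[≠] t) (𝓝 (phase t)) :=
    phase_cont.continuousAt.tendsto.mono_left nhdsWithin_le_nhds
  refine (h3.mul hg).congr fun u => ?_
  have hZ : Z t = 0 := (Z_zero_iff t).mpr h
  rw [slope_def_module, slope_def_module, hZ, h, sub_zero, sub_zero]
  unfold Z
  simp only [Complex.real_smul]
  ring

lemma half_re (t : ℝ) : (1 / 2 + I * t : ℂ).re = 1 / 2 := by simp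

lemma simple_of (t : ℝ) (hm : mult t ≤ 1) (hz : Z t = 0) : deriv Z t ≠ 0 := by
  have h0 := (Z_zero_iff t).1 hz
  rw [(Z_hasDerivAt t h0).deriv]
  intro h
  rcases mul_eq_zero.1 h with h | h
  · exact phase_ne t h
  rcases mul_eq_zero.1 h with h | h
  · have han := H313.TK.zeta_an (ρ := (1 / 2 + I * t : ℂ)) (by rw [half_re]; norm_num)
    have h2 : ((2 : ℕ) : ℕ∞) ≤ analyticOrderAt riemannZeta (1 / 2 + I * t) := by
      rw [natCast_le_analyticOrderAt_iff_iteratedDeriv_eq_zero han]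
      intro i hi
      interval_cases i
      · simpa using h0
      · simpa [iteratedDeriv_one] using h
    have h3 := h2.trans hm
    have h4 : (2 : ℕ) ≤ 1 := by exact_mod_cast h3
    omega
  · exact I_ne_zero h

theorem result :
    -- a zero of multiplicity at least `m` is seen, with both signs, in every window
    (∀ (t : ℝ) (m : ℕ), 1 ≤ m → (m : ℕ∞) ≤ mult t →
      ∃ c : ℝ, 0 < c ∧ ∀ᶠ x : ℝ in atTop,
        (∃ y ∈ Set.Icc x (x * Real.log x), c * (Real.sqrt y * Real.log y ^ (m - 1)) ≤ M y) ∧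
        (∃ y ∈ Set.Icc x (x * Real.log x), M y ≤ -(c * (Real.sqrt y * Real.log y ^ (m - 1)))) ∧
        c * Real.log x ^ (2 * (m - 1)) ≤ ∫ y in x..(x * Real.log x), (max (M y) 0 / y) ^ 2 ∧
        c * Real.log x ^ (2 * (m - 1)) ≤ ∫ y in x..(x * Real.log x), (max (-M y) 0 / y) ^ 2) ∧
    -- one-sided bounds on sparse windows bound all multiplicities (and imply the Riemann Hypothesis)
    (∀ (s : ℝ) (k : ℕ), s = 1 ∨ s = -1 → 1 ≤ k →
      ((∀ ε : ℝ, 0 < ε → SupBound s k ε) ∨ (∀ ε : ℝ, 0 < ε → SquareBound s k ε)) →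
      ∀ ρ : ℂ, riemannZeta ρ = 0 → 0 < ρ.re → ρ.re < 1 → ρ.re = 1 / 2 ∧ analyticOrderAt riemannZeta ρ ≤ k) ∧
    -- in particular they imply that the zeros of `Z` are simple
    (∀ s : ℝ, s = 1 ∨ s = -1 →
      ((∀ ε : ℝ, 0 < ε → SupBound s 1 ε) ∨ (∀ ε : ℝ, 0 < ε → SquareBound s 1 ε)) →
      ∀ t : ℝ, Z t = 0 → deriv Z t ≠ 0) := by
  have hM : M = H313.TK.MM := rfl
  have main : ∀ (s : ℝ) (k : ℕ), s = 1 ∨ s = -1 → 1 ≤ k →
      ((∀ ε : ℝ, 0 < ε → SupBound s k ε) ∨ (∀ ε : ℝ, 0 < ε → SquareBound s k ε)) →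
      ∀ ρ : ℂ, riemannZeta ρ = 0 → 0 < ρ.re → ρ.re < 1 → ρ.re = 1 / 2 ∧ analyticOrderAt riemannZeta ρ ≤ k := by
    intro s k hs hk h ρ hz h0 h1
    rcases h with h | h
    · exact H313.TK.sup_m s hs k hk h ρ hz h0 h1
    · exact H313.TK.weak_m s hs k hk h ρ hz h0 h1
  refine ⟨fun t m hm1 hm => ?_, main, fun s hs h t hz => ?_⟩
  · have hre := half_re t
    obtain ⟨c, hc, h⟩ := H313.TK.signs_m (1 / 2 + I * t) hre.ge (by rw [hre]; norm_num) m hm1 hm
    obtain ⟨c', hc', h'⟩ := H313.TK.sq_low_m (1 / 2 + I * t) hre.ge (by rw [hre]; norm_num) m hm1 hm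
    refine ⟨min c c', lt_min hc hc', ?_⟩
    filter_upwards [h, h', eventually_ge_atTop (1:ℝ)] with x hx hx' hx1
    have hl : 0 ≤ Real.log x := Real.log_nonneg hx1
    have hyl : ∀ y ∈ Set.Icc x (x * Real.log x), 0 ≤ Real.log y := fun y hy => Real.log_nonneg (hx1.trans hy.1)
    rw [hM]
    refine ⟨?_, ?_, ?_, ?_⟩
    · obtain ⟨y, hy, hy2⟩ := hx 1 (Or.inl rfl)
      rw [hre, ← Real.sqrt_eq_rpow, one_mul] at hy2
      have h3 := hyl y hy
      exact ⟨y, hy, le_trans (mul_le_mul_of_nonneg_right (min_le_left _ _) (by positivity)) hy2⟩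
    · obtain ⟨y, hy, hy2⟩ := hx (-1) (Or.inr rfl)
      rw [hre, ← Real.sqrt_eq_rpow] at hy2
      have h3 := hyl y hy
      have h4 : min c c' * (Real.sqrt y * Real.log y ^ (m - 1)) ≤ c * (Real.sqrt y * Real.log y ^ (m - 1)) :=
        mul_le_mul_of_nonneg_right (min_le_left _ _) (by positivity)
      exact ⟨y, hy, by linarith⟩
    · have h3 := hx' 1 (Or.inl rfl)
      rw [hre] at h3
      norm_num at h3
      exact le_trans (mul_le_mul_of_nonneg_right (min_le_right _ _) (by positivity)) h3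
    · have h3 := hx' (-1) (Or.inr rfl)
      rw [hre] at h3
      norm_num at h3
      exact le_trans (mul_le_mul_of_nonneg_right (min_le_right _ _) (by positivity)) h3
  · have h0 := (Z_zero_iff t).1 hz
    have hre := half_re t
    have h2 := (main s 1 hs le_rfl h (1 / 2 + I * t) h0 (by rw [hre]; norm_num) (by rw [hre]; norm_num)).2
    exact simple_of t (by simpa [mult] using h2) hz

end Pool.Agent.Results.MP_6bc78b_nt.OneSidedMertens
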